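import Pool.Agent.Helper730.SMC
import Pool.Agent.Helper730.SNB

set_option autoImplicit false

open scoped commutatorElement

namespace Pool.Agent.Results.MP_cac120_al.NilpotentByAbelian

open Pool.Agent.Helper730.SM

/-- Let `V` be a variety of groups, given by a set `S` of laws, which is small: countably many
groups contain, up to isomorphism, all finitely generated groups in `V`. Then every finitely
generated nilpotent-by-abelian-by-finite group in `V` is Hopfian. -/
theorem result :
    ∀ S : Set (FreeGroup ℕ),
      (∃ (T : ℕ → Type) (_ : ∀ n, Group (T n)), ∀ (H : Type) [Group H], Group.FG H →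
        (∀ w ∈ S, ∀ f : FreeGroup ℕ →* H, f w = 1) → ∃ n, Nonempty (H ≃* T n)) →
      ∀ (G : Type) [Group G], Group.FG G → (∀ w ∈ S, ∀ f : FreeGroup ℕ →* G, f w = 1) →
        (∃ H : Subgroup G, H.FiniteIndex ∧ Group.IsNilpotent (⁅H, H⁆ : Subgroup G)) →
        ∀ φ : G →* G, Function.Surjective φ → Function.Injective φ := by
  rintro S hsmall G _ hfg hG ⟨H, hH, hnil⟩
  exact hopf_of_maxn (nab_main (nb_of_small (smallVar_of_laws hsmall hG)) hfg H hH hnil)

end Pool.Agent.Results.MP_cac120_al.NilpotentByAbelian
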